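import Pool.Agent.H44.DG.Targets

/-! Module GAM: the game from a two-sided good state. -/

namespace Pool.Agent.H58.DG

open Pool.Agent.H44.DG

section

variable {V : Type}

lemma draw_lstep {D D' : Drawing V} (hE : EInv D) (h : Draw D D') :
    LStep D.regions D'.regions ∧ EInv D' ∧ ∃ e, e ∉ D.edges ∧ D'.edges = insert e D.edges := by
  obtain ⟨u, v, huv, he, hD', Φ, Ψ, F, hr, hr', hm⟩ := h
  have hadj : ¬ Adj D.regions u v := fun h => he ((hE u v huv).2 h)
  refine ⟨⟨u, v, huv, hadj, Φ, Ψ, F, hr, hr', hm⟩, ?_, _, he, hD'⟩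
  intro x y hxy
  rw [hD', hr', Set.mem_insert_iff, adj_add, hm.adj, hE x y hxy, hr, adj_cons, Sym2.eq_iff]
  tauto

lemma lstep_draw {D : Drawing V} (hE : EInv D) {F' : Multiset (Region V)} (h : LStep D.regions F') :
    ∃ D' : Drawing V, Draw D D' ∧ D'.regions = F' := by
  obtain ⟨u, v, huv, hadj, Φ, Ψ, G, hr, rfl, hm⟩ := h
  exact ⟨⟨insert s(u, v) D.edges, Ψ + G⟩, ⟨u, v, huv, fun he => hadj ((hE u v huv).1 he), rfl,
    Φ, Ψ, G, hr, rfl, hm⟩, rfl⟩

lemma lstep_add {F G F' : Multiset (Region V)} (h : LStep (F + G) F') :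
    (∃ F1, LStep F F1 ∧ F' = F1 + G) ∨ ∃ G1, LStep G G1 ∧ F' = F + G1 := by
  obtain ⟨u, v, huv, hadj, Φ, Ψ, H, hr, rfl, hm⟩ := h
  rw [adj_add, not_or] at hadj
  have hΦ : Φ ∈ F + G := by
    rw [hr]
    exact Multiset.mem_cons_self _ _
  rcases Multiset.mem_add.1 hΦ with h1 | h1
  · obtain ⟨F0, rfl⟩ := Multiset.exists_cons_of_mem h1
    left
    refine ⟨Ψ + F0, ⟨u, v, huv, hadj.1, Φ, Ψ, F0, rfl, rfl, hm⟩, ?_⟩
    rw [Multiset.cons_add] at hr
    rw [← (Multiset.cons_inj_right Φ).1 hr, add_assoc]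
  · obtain ⟨G0, rfl⟩ := Multiset.exists_cons_of_mem h1
    right
    refine ⟨Ψ + G0, ⟨u, v, huv, hadj.2, Φ, Ψ, G0, rfl, rfl, hm⟩, ?_⟩
    rw [Multiset.add_cons] at hr
    rw [← (Multiset.cons_inj_right Φ).1 hr]
    abel

lemma tri_add (x y z : V) (W : Multiset V) :
    (↑[x, y, z] : Cycle V).toMultiset + W = x ::ₘ y ::ₘ z ::ₘ W := by
  change ((↑[x, y, z] : Multiset V)) + W = _
  rw [← Multiset.cons_coe, ← Multiset.cons_coe, ← Multiset.cons_coe, Multiset.coe_nil,
    Multiset.cons_add, Multiset.cons_add, Multiset.cons_add, zero_add]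

lemma tri_add' (x y z : V) (W : Multiset V) :
    (↑[z, y, x] : Cycle V).toMultiset + W = x ::ₘ y ::ₘ z ::ₘ W := by
  rw [tri_add, Multiset.cons_swap z y, Multiset.cons_swap z x, Multiset.cons_swap y x]

/-- walks from lists -/
lemma exists_walk {F : Multiset (Region V)} {G : SimpleGraph V}
    (hG : ∀ x y, x ≠ y → Adj F x y → G.Adj x y) :
    ∀ (l : List V) (x y : V), AChain F x (l ++ [y]) → (x :: (l ++ [y])).Nodup →
      ∃ p : G.Walk x y, p.support = x :: (l ++ [y]) := by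
  intro l
  induction l with
  | nil =>
    intro x y h hnd
    simp only [List.nil_append] at h hnd ⊢
    have hxy : x ≠ y := by
      rintro rfl
      simp at hnd
    exact ⟨SimpleGraph.Walk.cons (hG x y hxy h.1) SimpleGraph.Walk.nil, by simp⟩
  | cons z l ih =>
    intro x y h hnd
    simp only [List.cons_append] at h hnd ⊢
    obtain ⟨h1, h2⟩ := h
    rw [List.nodup_cons] at hnd
    have hxz : x ≠ z := by
      rintro rfl
      exact hnd.1 List.mem_cons_self
    obtain ⟨p, hp⟩ := ih z y h2 hnd.2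
    exact ⟨SimpleGraph.Walk.cons (hG x z hxz h1) p, by rw [SimpleGraph.Walk.support_cons, hp]⟩

/-- a Hamiltonian cycle from a Hamiltonian path with adjacent ends -/
lemma ham_of_path [Fintype V] [DecidableEq V] {G : SimpleGraph V} {a c : V} (p : G.Walk a c)
    (hnd : p.support.Nodup) (hall : ∀ v, v ∈ p.support) (hlen : 3 ≤ p.support.length)
    (hca : G.Adj c a) : G.IsHamiltonian := by
  intro _
  refine ⟨c, SimpleGraph.Walk.cons hca p, ?_⟩
  rw [SimpleGraph.Walk.isHamiltonianCycle_iff_isCycle_and_support_count_tail_eq_one]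
  have hpath : p.IsPath := by
    rw [SimpleGraph.Walk.isPath_def]
    exact hnd
  constructor
  · rw [SimpleGraph.Walk.cons_isCycle_iff]
    refine ⟨hpath, ?_⟩
    cases p with
    | nil =>
      simp at hlen
    | cons h q =>
      rw [SimpleGraph.Walk.cons_isPath_iff] at hpath
      rw [SimpleGraph.Walk.edges_cons, List.mem_cons, not_or]
      constructor
      · intro he
        rw [Sym2.eq_iff] at he
        rcases he with ⟨h1, -⟩ | ⟨h1, -⟩
        · exact hca.ne h1
        · subst h1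
          have hq : q.IsPath := hpath.1
          rw [SimpleGraph.Walk.isPath_iff_eq_nil] at hq
          subst hq
          simp at hlen
      · intro he
        exact hpath.2 (SimpleGraph.Walk.snd_mem_support_of_mem_edges q he)
  · intro v
    rw [SimpleGraph.Walk.support_cons, List.tail_cons]
    exact List.count_eq_one_of_mem hnd (hall v)

/-- Two good states in which no step is possible: the graph is Hamiltonian. -/
lemma ham_of_stuck [Fintype V] [DecidableEq V] (hFIN : T_FIN) (hLOC : T_LOC) {D : Drawing V}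
    (hcard : 3 ≤ Fintype.card V) (hE : EInv D)
    {a b c : V} {W₁ W₂ : Multiset V} {F₁ F₂ : Multiset (Region V)} (hF : D.regions = F₁ + F₂)
    (h1 : Reg ↑[a, b, c] W₁ F₁) (h2 : Reg ↑[c, b, a] W₂ F₂)
    (hu : (a ::ₘ b ::ₘ c ::ₘ (W₁ + W₂)) = (Finset.univ : Finset V).val)
    (hs1 : Stuck F₁) (hs2 : Stuck F₂) : D.graph.IsHamiltonian := by
  have hnd : (a ::ₘ b ::ₘ c ::ₘ (W₁ + W₂)).Nodup := by
    rw [hu]
    exact Finset.univ.nodup
  have hnd1 : (((↑[a, b, c] : Cycle V).toMultiset) + W₁).Nodup := by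
    refine Multiset.nodup_of_le ?_ hnd
    rw [tri_add]
    exact Multiset.cons_le_cons _ (Multiset.cons_le_cons _ (Multiset.cons_le_cons _
      (Multiset.le_add_right _ _)))
  have hnd2 : (((↑[c, b, a] : Cycle V).toMultiset) + W₂).Nodup := by
    refine Multiset.nodup_of_le ?_ hnd
    rw [tri_add']
    exact Multiset.cons_le_cons _ (Multiset.cons_le_cons _ (Multiset.cons_le_cons _
      (Multiset.le_add_left _ _)))
  have hab : a ≠ b := by
    rintro rfl
    simp at hnd
  have hbc : b ≠ c := by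
    rintro rfl
    simp at hnd
  have hac : a ≠ c := by
    rintro rfl
    simp at hnd
  obtain ⟨l1, hl1, hc1⟩ := hFIN V _ W₁ F₁ hnd1 h1 hs1 a b (by simp) (by simp) hab
  obtain ⟨l2, hl2, hc2⟩ := hFIN V _ W₂ F₂ hnd2 h2 hs2 b c (by simp) (by simp) hbc
  have hG : ∀ x y, x ≠ y → Adj D.regions x y → D.graph.Adj x y := by
    intro x y hxy h
    unfold Drawing.graph
    rw [SimpleGraph.fromEdgeSet_adj]
    exact ⟨(hE x y hxy).2 h, hxy⟩
  have hG1 : ∀ x y, x ≠ y → Adj F₁ x y → D.graph.Adj x y := fun x y hxy h =>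
    hG x y hxy (by rw [hF, adj_add]; exact Or.inl h)
  have hG2 : ∀ x y, x ≠ y → Adj F₂ x y → D.graph.Adj x y := fun x y hxy h =>
    hG x y hxy (by rw [hF, adj_add]; exact Or.inr h)
  have hperm : ((a :: (l1 ++ [b]) ++ (l2 ++ [c]) : List V) : Multiset V) =
      (Finset.univ : Finset V).val := by
    rw [← hu, ← hl1, ← hl2]
    rw [← Multiset.coe_add, ← Multiset.coe_add, ← Multiset.cons_coe, ← Multiset.coe_add,
      Multiset.coe_singleton, Multiset.coe_singleton, ← Multiset.singleton_add a,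
      ← Multiset.singleton_add a, ← Multiset.singleton_add b, ← Multiset.singleton_add c]
    abel
  have hndL : (a :: (l1 ++ [b]) ++ (l2 ++ [c])).Nodup := by
    rw [← Multiset.coe_nodup, hperm]
    exact Finset.univ.nodup
  have hndL1 : (a :: (l1 ++ [b])).Nodup := (List.nodup_append.1 hndL).1
  have hndL2 : (b :: (l2 ++ [c])).Nodup := by
    have h3 : a :: (l1 ++ [b]) ++ (l2 ++ [c]) = (a :: l1) ++ (b :: (l2 ++ [c])) := by simp
    rw [h3] at hndL
    exact (List.nodup_append.1 hndL).2.1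
  obtain ⟨p1, hp1⟩ := exists_walk hG1 l1 a b hc1 hndL1
  obtain ⟨p2, hp2⟩ := exists_walk hG2 l2 b c hc2 hndL2
  have hsup : (p1.append p2).support = a :: (l1 ++ [b]) ++ (l2 ++ [c]) := by
    rw [SimpleGraph.Walk.support_append, hp1, hp2, List.tail_cons]
  refine ham_of_path (p1.append p2) ?_ ?_ ?_ ?_
  · rw [hsup]
    exact hndL
  · intro v
    rw [hsup, ← Multiset.mem_coe, hperm]
    exact Finset.mem_univ v
  · rw [hsup, ← Multiset.coe_card, hperm]
    exact hcard
  · refine hG1 c a hac.symm ?_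
    exact (hLOC V _ W₁ F₁ h1).1.2 c a (by simp) (by simp) hac.symm

end

/-- number of missing edges -/
noncomputable def mu {n : ℕ} (D : Drawing (Fin n)) : ℕ := (D.edgesᶜ : Set (Sym2 (Fin n))).ncard

lemma mu_lt {n : ℕ} {D D' : Drawing (Fin n)} {e : Sym2 (Fin n)} (he : e ∉ D.edges)
    (hD : D'.edges = insert e D.edges) : mu D' < mu D := by
  unfold mu
  refine Set.ncard_lt_ncard ?_ (Set.toFinite _)
  rw [hD]
  refine ⟨fun x hx hx2 => hx (Set.mem_insert_of_mem _ hx2), fun hsub => ?_⟩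
  exact hsub he (Set.mem_insert _ _)

theorem pf_GAM (hSTEP : T_STEP) (hEXT : T_EXT) (hFIN : T_FIN) (hLOC : T_LOC) : T_GAM := by
  intro n D hn
  suffices h : ∀ (m : ℕ) (D : Drawing (Fin n)), mu D = m → EInv D → Two D.regions → ∀ t : Player,
      Wins 1 1 .builder (fun D : Drawing (Fin n) => D.graph.IsHamiltonian) (t, 1) D from
    h _ D rfl
  intro m
  induction m using Nat.strong_induction_on with
  | _ m ih =>
  intro D hm hE hT t
  obtain ⟨a, b, c, W₁, W₂, F₁, F₂, hF, h1, h2, hu⟩ := hT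
  have hnd : (a ::ₘ b ::ₘ c ::ₘ (W₁ + W₂)).Nodup := by
    rw [hu]
    exact Finset.univ.nodup
  have e1 : ((↑[a, b, c] : Cycle (Fin n)).toMultiset) + W₁ = a ::ₘ b ::ₘ c ::ₘ W₁ :=
    tri_add _ _ _ _
  have e2 : ((↑[c, b, a] : Cycle (Fin n)).toMultiset) + W₂ = a ::ₘ b ::ₘ c ::ₘ W₂ :=
    tri_add' _ _ _ _
  have hnd1 : (((↑[a, b, c] : Cycle (Fin n)).toMultiset) + W₁).Nodup := by
    rw [e1]
    exact Multiset.nodup_of_le (Multiset.cons_le_cons _ (Multiset.cons_le_cons _
      (Multiset.cons_le_cons _ (Multiset.le_add_right _ _)))) hnd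
  have hnd2 : (((↑[c, b, a] : Cycle (Fin n)).toMultiset) + W₂).Nodup := by
    rw [e2]
    exact Multiset.nodup_of_le (Multiset.cons_le_cons _ (Multiset.cons_le_cons _
      (Multiset.cons_le_cons _ (Multiset.le_add_left _ _)))) hnd
  have hdis : ∀ x, x ∈ W₁ → x ∈ W₂ → False := by
    intro x hx1 hx2
    rw [Multiset.nodup_cons, Multiset.nodup_cons, Multiset.nodup_cons] at hnd
    have := (Multiset.nodup_add.1 hnd.2.2.2).2.2
    exact Multiset.disjoint_left.1 this hx1 hx2
  have ho1 : ∀ x, x ∈ (↑[a, b, c] : Cycle (Fin n)) → x ∉ W₁ ∧ x ∉ W₂ := by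
    intro x hx
    rw [Multiset.nodup_cons, Multiset.nodup_cons, Multiset.nodup_cons] at hnd
    obtain ⟨n1, n2, n3, -⟩ := hnd
    simp only [Cycle.mem_coe_iff, List.mem_cons, List.not_mem_nil, or_false] at hx
    simp only [Multiset.mem_cons, Multiset.mem_add, not_or] at n1 n2 n3
    rcases hx with rfl | rfl | rfl
    · exact ⟨n1.2.2.1, n1.2.2.2⟩
    · exact ⟨n2.2.1, n2.2.2⟩
    · exact ⟨n3.1, n3.2⟩
  have ho2 : ∀ x, x ∈ (↑[c, b, a] : Cycle (Fin n)) → x ∉ W₁ ∧ x ∉ W₂ := by
    intro x hx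
    apply ho1
    simp only [Cycle.mem_coe_iff, List.mem_cons, List.not_mem_nil, or_false] at hx ⊢
    tauto
  -- liftings
  have lift1 : ∀ {F F' G : Multiset (Region (Fin n))} {W : Multiset (Fin n)}, LStep F F' →
      Loc (fun x => x ∈ (↑[a, b, c] : Cycle (Fin n))) (fun x => x ∈ W₁) F →
      Reg (↑[c, b, a] : Cycle (Fin n)) W₂ G → LStep (F + G) (F' + G) := by
    intro F F' G W hs hl hG
    refine hs.lift hl fun x hx hxW => ?_
    rcases (hLOC _ _ W₂ G hG).1.1 x hx with h3 | h3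
    · exact (ho2 x h3).1 hxW
    · exact hdis x hxW h3
  have lift2 : ∀ {F G G' : Multiset (Region (Fin n))}, LStep G G' →
      Loc (fun x => x ∈ (↑[c, b, a] : Cycle (Fin n))) (fun x => x ∈ W₂) G →
      Reg (↑[a, b, c] : Cycle (Fin n)) W₁ F → LStep (F + G) (F + G') := by
    intro F G G' hs hl hF
    rw [add_comm F G, add_comm F G']
    refine hs.lift hl fun x hx hxW => ?_
    rcases (hLOC _ _ W₁ F hF).1.1 x hx with h3 | h3
    · exact (ho1 x h3).2 hxW
    · exact hdis x h3 hxW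
  have hl1 := (hLOC _ _ W₁ F₁ h1).1
  have hl2 := (hLOC _ _ W₂ F₂ h2).1
  -- the final position
  have hover : Stuck F₁ → Stuck F₂ →
      Wins 1 1 .builder (fun D : Drawing (Fin n) => D.graph.IsHamiltonian) (t, 1) D := by
    intro hs1 hs2
    refine Wins.over _ _ (fun D' hD' => ?_) ?_
    · have h3 := (draw_lstep hE hD').1
      rw [hF] at h3
      rcases lstep_add h3 with ⟨F1, h4, -⟩ | ⟨F1, h4, -⟩
      · exact hs1 _ h4
      · exact hs2 _ h4
    · exact ham_of_stuck hFIN hLOC (by rw [Fintype.card_fin]; exact hn) hE hF h1 h2 hu hs1 hs2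
  cases t with
  | builder =>
    rcases hEXT _ _ W₁ F₁ hnd1 h1 with hs1 | ⟨F1, hF1, hR1⟩
    · rcases hEXT _ _ W₂ F₂ hnd2 h2 with hs2 | ⟨F2, hF2, hR2⟩
      · exact hover hs1 hs2
      · have hst : LStep D.regions (F₁ + F2) := by
          rw [hF]
          exact lift2 hF2 hl2 h1
        obtain ⟨D', hD', hr⟩ := lstep_draw hE hst
        obtain ⟨-, hE', e, he, hed⟩ := draw_lstep hE hD'
        refine Wins.own 0 D D' hD' ?_
        exact ih _ (hm ▸ mu_lt he hed) D' rfl hE' ⟨a, b, c, W₁, W₂, F₁, F2, hr, h1, hR2, hu⟩ _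
    · have hst : LStep D.regions (F1 + F₂) := by
        rw [hF]
        exact lift1 (W := W₁) hF1 hl1 h2
      obtain ⟨D', hD', hr⟩ := lstep_draw hE hst
      obtain ⟨-, hE', e, he, hed⟩ := draw_lstep hE hD'
      refine Wins.own 0 D D' hD' ?_
      exact ih _ (hm ▸ mu_lt he hed) D' rfl hE' ⟨a, b, c, W₁, W₂, F1, F₂, hr, hR1, h2, hu⟩ _
  | spoiler =>
    by_cases hex : ∃ D', Draw D D'
    · refine Wins.opp .spoiler (by decide) 0 D hex fun D' hD' => ?_
      obtain ⟨hst, hE', e, he, hed⟩ := draw_lstep hE hD'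
      have hmu : mu D' < m := hm ▸ mu_lt he hed
      rw [hF] at hst
      change Wins 1 1 .builder _ (.builder, 1) D'
      rcases lstep_add hst with ⟨F1, h4, h5⟩ | ⟨F1, h4, h5⟩
      · rcases hSTEP _ _ W₁ F₁ hnd1 h1 F1 h4 with h6 | ⟨F2, h6, h7⟩
        · exact ih _ hmu D' rfl hE' ⟨a, b, c, W₁, W₂, F1, F₂, h5, h6, h2, hu⟩ _
        · have hst2 : LStep D'.regions (F2 + F₂) := by
            rw [h5]
            exact lift1 (W := W₁) h6 (h4.loc hl1) h2
          obtain ⟨D'', hD'', hr⟩ := lstep_draw hE' hst2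
          obtain ⟨-, hE'', e', he', hed'⟩ := draw_lstep hE' hD''
          refine Wins.own 0 D' D'' hD'' ?_
          exact ih _ ((mu_lt he' hed').trans hmu) D'' rfl hE''
            ⟨a, b, c, W₁, W₂, F2, F₂, hr, h7, h2, hu⟩ _
      · rcases hSTEP _ _ W₂ F₂ hnd2 h2 F1 h4 with h6 | ⟨F2, h6, h7⟩
        · exact ih _ hmu D' rfl hE' ⟨a, b, c, W₁, W₂, F₁, F1, h5, h1, h6, hu⟩ _
        · have hst2 : LStep D'.regions (F₁ + F2) := by
            rw [h5]
            exact lift2 h6 (h4.loc hl2) h1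
          obtain ⟨D'', hD'', hr⟩ := lstep_draw hE' hst2
          obtain ⟨-, hE'', e', he', hed'⟩ := draw_lstep hE' hD''
          refine Wins.own 0 D' D'' hD'' ?_
          exact ih _ ((mu_lt he' hed').trans hmu) D'' rfl hE''
            ⟨a, b, c, W₁, W₂, F₁, F2, hr, h1, h7, hu⟩ _
    · push Not at hex
      have hs1 : Stuck F₁ := by
        intro F1 hF1
        have hst : LStep D.regions (F1 + F₂) := by
          rw [hF]
          exact lift1 (W := W₁) hF1 hl1 h2
        obtain ⟨D', hD', -⟩ := lstep_draw hE hst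
        exact hex D' hD'
      have hs2 : Stuck F₂ := by
        intro F2 hF2
        have hst : LStep D.regions (F₁ + F2) := by
          rw [hF]
          exact lift2 hF2 hl2 h1
        obtain ⟨D', hD', -⟩ := lstep_draw hE hst
        exact hex D' hD'
      exact hover hs1 hs2

end Pool.Agent.H58.DG
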