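import Pool.Agent.H44.DG.Targets

/-! Module REP: replacing the regions of one part. -/

namespace Pool.Agent.H58.DG

open Pool.Agent.H44.DG

lemma mem_tags {G : LF} {j : ℕ} {w : Cycle ℕ} (h : (Tag.T j, w) ∈ G) : j ∈ tags G := by
  unfold tags
  rw [Multiset.mem_filterMap]
  exact ⟨(Tag.T j, w), h, rfl⟩

lemma tags_cons (i : ℕ) (w : Cycle ℕ) (G : LF) : tags ((Tag.T i, w) ::ₘ G) = i ::ₘ tags G := by
  unfold tags
  rw [Multiset.filterMap_cons_some]
  rfl

theorem pf_REP : T_REP := by
  intro V c i w G X hnd
  rw [tags_cons, Multiset.nodup_cons] at hnd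
  have h4 : ∀ j w', (Tag.T j, w') ∈ G → Function.update c.FS i X j = c.FS j := by
    intro j w' hj
    have hji : j ≠ i := by
      rintro rfl
      exact hnd.1 (mem_tags hj)
    exact Function.update_of_ne hji _ _
  have h2 : real { c with FS := Function.update c.FS i X } G = real c G := by
    unfold real
    refine Multiset.bind_congr fun x hx => ?_
    obtain ⟨t, w'⟩ := x
    cases t with
    | E => rfl
    | R k => rfl
    | T j => exact h4 j w' hx
  refine ⟨?_, h2, ?_, h4⟩
  · rw [← h2]
    unfold real
    rw [Multiset.cons_bind]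
    have : real1 { c with FS := Function.update c.FS i X } (Tag.T i, w) = X := by
      change Function.update c.FS i X i = X
      exact Function.update_self i X c.FS
    rw [this]
  · intro L
    unfold vs
    refine Multiset.bind_congr fun x _ => ?_
    obtain ⟨t, w'⟩ := x
    cases t <;> rfl

end Pool.Agent.H58.DG
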